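import Pool.Agent.H377Z.Rec.Graph

set_option autoImplicit false

namespace Pool.Agent.Results.MP_868dd6_pr.Counterexample

open Pool.Agent.H377Z.Rec

/-- A recurrent unimodular random rooted graph whose root degree has an exponential tail and all
of whose powers `G^k`, `k ≥ 2`, are transient. -/
theorem result :
    ∃ (V : Type) (_ : Countable V) (_ : MeasurableSpace V) (_ : DiscreteMeasurableSpace V)
      (G : SimpleGraph V) (p : PMF V),
      G.Connected ∧ (∀ v, (G.neighborSet v).Finite) ∧ Unimodular G p ∧
      (∃ C c : ℝ, 0 < C ∧ 0 < c ∧ ∀ n : ℕ, 1 ≤ n →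
        p.toMeasure {v | n ≤ (G.neighborSet v).ncard} ≤
          ENNReal.ofReal (C * Real.exp (-c * n))) ∧
      (∀ v, returnProb G v = 1) ∧
      (∀ k : ℕ, 2 ≤ k → ∀ v, returnProb (power G k) v < 1) :=
  ⟨Vx, inferInstance, inferInstance, inferInstance, gr, root, gr_connected, gr_fin, gr_unimodular,
    gr_tail, gr_recurrent, fun _ hk v => power_transient hk v⟩

end Pool.Agent.Results.MP_868dd6_pr.Counterexample
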